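import Pool.Agent.H20.SK.FOUR

/-!
# MP_2fe131_nt: the double cotangent formula
-/

namespace Pool.Agent.H20.SK

open _root_.SK Finset

theorem sum_zmod {k : ℕ} [NeZero k] (g : ZMod k → ℝ) :
    ∑ t : ZMod k, g t = ∑ i ∈ Finset.range k, g (i : ZMod k) := by
  refine Finset.sum_nbij' (fun t => t.val) (fun i => (i : ZMod k)) ?_ ?_ ?_ ?_ ?_
  · intro t _; exact Finset.mem_range.2 (ZMod.val_lt t)
  · intro i _; exact Finset.mem_univ _
  · intro t _; exact ZMod.natCast_zmod_val t
  · intro i hi; exact ZMod.val_cast_of_lt (Finset.mem_range.1 hi)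
  · intro t _; rw [ZMod.natCast_zmod_val]

theorem sum_even {k : ℕ} [hk : Fact k.Prime] (h2 : k ≠ 2) (g : ZMod k → ℝ) (h0 : g 0 = 0)
    (hg : ∀ t, g (-t) = g t) : ∑ t : ZMod k, g t = 2 * ∑ u ∈ odds k, g (u : ZMod k) := by
  have : NeZero k := ⟨hk.out.ne_zero⟩
  have hodd : k % 2 = 1 := by
    rcases hk.out.eq_two_or_odd with h | h
    · exact absurd h h2
    · exact h
  rw [sum_zmod, ← Finset.sum_filter_add_sum_filter_not (Finset.range k) (fun n => n % 2 = 1)]
  have e1 : ∑ i ∈ (Finset.range k).filter (fun n => ¬ n % 2 = 1), g (i : ZMod k) =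
      ∑ i ∈ (Finset.range k).filter (fun n => n % 2 = 0 ∧ 0 < n), g (i : ZMod k) := by
    symm
    refine Finset.sum_subset ?_ ?_
    · intro i hi
      rw [Finset.mem_filter, Finset.mem_range] at hi ⊢
      omega
    · intro i hi hi'
      rw [Finset.mem_filter, Finset.mem_range] at hi hi'
      have : i = 0 := by omega
      rw [this, Nat.cast_zero, h0]
  have e2 : ∑ i ∈ (Finset.range k).filter (fun n => n % 2 = 0 ∧ 0 < n), g (i : ZMod k) =
      ∑ u ∈ odds k, g (u : ZMod k) := by
    refine Finset.sum_nbij' (fun i => k - i) (fun u => k - u) ?_ ?_ ?_ ?_ ?_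
    · intro i hi
      rw [Finset.mem_filter, Finset.mem_range] at hi
      rw [odds, Finset.mem_filter, Finset.mem_range]
      omega
    · intro u hu
      rw [odds, Finset.mem_filter, Finset.mem_range] at hu
      rw [Finset.mem_filter, Finset.mem_range]
      omega
    · intro i hi
      rw [Finset.mem_filter, Finset.mem_range] at hi
      omega
    · intro u hu
      rw [odds, Finset.mem_filter, Finset.mem_range] at hu
      omega
    · intro i hi
      rw [Finset.mem_filter, Finset.mem_range] at hi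
      rw [Nat.cast_sub (by omega), ZMod.natCast_self, zero_sub, hg]
  rw [e1, e2]
  change ∑ u ∈ odds k, g (u : ZMod k) + _ = _
  ring

theorem eps_neg {k : ℕ} [hk : Fact k.Prime] (h2 : k ≠ 2) (x : ZMod k) :
    eps k (-x) = - eps k x := by
  have : NeZero k := ⟨hk.out.ne_zero⟩
  have hodd : k % 2 = 1 := by
    rcases hk.out.eq_two_or_odd with h | h
    · exact absurd h h2
    · exact h
  unfold eps
  by_cases hx : x = 0
  · simp [hx]
  · haveI : NeZero x := ⟨hx⟩
    have hv : (-x).val = k - x.val := ZMod.val_neg_of_ne_zero x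
    have hlt := ZMod.val_lt x
    have hpos : 0 < x.val := by
      rcases Nat.eq_zero_or_pos x.val with h | h
      · exact absurd ((ZMod.val_eq_zero x).1 h) hx
      · exact h
    rw [if_neg (neg_ne_zero.2 hx), if_neg hx, hv]
    by_cases h1 : x.val % 2 = 1
    · rw [if_neg (by omega), if_pos h1]
    · rw [if_pos (by omega), if_neg h1]; ring

theorem im_neg_char {k : ℕ} [NeZero k] (x : ZMod k) :
    (ZMod.stdAddChar (-x) : ℂ).im = - (ZMod.stdAddChar x : ℂ).im := by
  rw [AddChar.map_neg_eq_conj, Complex.conj_im]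

theorem pf_FORM (hTRI : TARGET_TRI) (hFOT : TARGET_FOT) (hFOU : TARGET_FOU) : TARGET_FORM := by
  intro k hk h2
  have : NeZero k := ⟨hk.out.ne_zero⟩
  have hk0 : (0 : ℝ) < k := by exact_mod_cast hk.out.pos
  set W : ZMod k → ℝ := fun c => - ∑ j : ZMod k, eps k j *
    (ZMod.stdAddChar (c * (2 : ZMod k)⁻¹ * j)).im with hW
  have hWt : ∀ t ∈ odds k, W (t : ZMod k) = w k t := by
    intro t ht
    rw [hW]; simp only
    rw [hFOT k h2 t ht, neg_neg]
  have hWneg : ∀ c, W (-c) = - W c := by
    intro c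
    have e : ∑ j : ZMod k, eps k j * (ZMod.stdAddChar (-c * (2 : ZMod k)⁻¹ * j)).im =
        - ∑ j : ZMod k, eps k j * (ZMod.stdAddChar (c * (2 : ZMod k)⁻¹ * j)).im := by
      rw [← Finset.sum_neg_distrib]
      refine Finset.sum_congr rfl fun j _ => ?_
      have : -c * (2 : ZMod k)⁻¹ * j = -(c * (2 : ZMod k)⁻¹ * j) := by ring
      rw [this, im_neg_char]; ring
    rw [hW]
    simp only [e]
  have hW0 : W 0 = 0 := by
    have := hWneg 0
    rw [neg_zero] at this
    linarith
  have hinner : ∀ v ∈ odds k, ∑ h : ZMod k, eps k h * W ((v : ZMod k) * h) = 2 * T k v := by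
    intro v hv
    have hv0 := odd_ne hv
    have e1 : ∑ h : ZMod k, eps k h * W ((v : ZMod k) * h) =
        ∑ t : ZMod k, eps k (t * (v : ZMod k)⁻¹) * W t := by
      refine Fintype.sum_bijective (fun h => (v : ZMod k) * h)
        (mulLeft_bijective₀ (v : ZMod k) hv0) _ _ ?_
      intro h
      have : (v : ZMod k) * h * (v : ZMod k)⁻¹ = h := by
        field_simp
      simp only [this]
    rw [e1, sum_even h2 (fun t => eps k (t * (v : ZMod k)⁻¹) * W t)]
    · unfold T
      congr 1
      refine Finset.sum_congr rfl fun u hu => ?_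
      rw [hWt u hu]; ring
    · simp only [hW0, mul_zero]
    · intro t
      rw [hWneg, neg_mul, eps_neg h2]; ring
  rw [hTRI k h2]
  have key : ∀ h j : ZMod k, eps k h * eps k j * eps k (h * j) =
      ∑ v ∈ odds k, (-(2 / k) * w k v) * (eps k h * (eps k j *
        (ZMod.stdAddChar ((v : ZMod k) * h * (2 : ZMod k)⁻¹ * j)).im)) := by
    intro h j
    rw [hFOU k h2 (h * j), Finset.mul_sum, Finset.mul_sum]
    refine Finset.sum_congr rfl fun v _ => ?_
    have : (v : ZMod k) * (2 : ZMod k)⁻¹ * (h * j) = (v : ZMod k) * h * (2 : ZMod k)⁻¹ * j := by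
      ring
    rw [this]; ring
  have e1 : ∑ h : ZMod k, ∑ j : ZMod k, eps k h * eps k j * eps k (h * j) =
      ∑ v ∈ odds k, (2 / k * w k v) * ∑ h : ZMod k, eps k h * W ((v : ZMod k) * h) := by
    calc ∑ h : ZMod k, ∑ j : ZMod k, eps k h * eps k j * eps k (h * j)
        = ∑ h : ZMod k, ∑ j : ZMod k, ∑ v ∈ odds k, (-(2 / k) * w k v) *
          (eps k h * (eps k j *
            (ZMod.stdAddChar ((v : ZMod k) * h * (2 : ZMod k)⁻¹ * j)).im)) := by
          refine Finset.sum_congr rfl fun h _ => Finset.sum_congr rfl fun j _ => key h j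
      _ = ∑ h : ZMod k, ∑ v ∈ odds k, ∑ j : ZMod k, (-(2 / k) * w k v) *
          (eps k h * (eps k j *
            (ZMod.stdAddChar ((v : ZMod k) * h * (2 : ZMod k)⁻¹ * j)).im)) := by
          refine Finset.sum_congr rfl fun h _ => Finset.sum_comm
      _ = ∑ v ∈ odds k, ∑ h : ZMod k, ∑ j : ZMod k, (-(2 / k) * w k v) *
          (eps k h * (eps k j *
            (ZMod.stdAddChar ((v : ZMod k) * h * (2 : ZMod k)⁻¹ * j)).im)) := Finset.sum_comm
      _ = _ := by
          refine Finset.sum_congr rfl fun v _ => ?_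
          rw [Finset.mul_sum]
          refine Finset.sum_congr rfl fun h _ => ?_
          rw [← Finset.mul_sum, ← Finset.mul_sum]
          simp only [hW]
          ring
  rw [e1]
  rw [Finset.mul_sum, Finset.mul_sum]
  refine Finset.sum_congr rfl fun v hv => ?_
  rw [hinner v hv]
  ring

end Pool.Agent.H20.SK
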