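import Pool.Agent.H46.SK.Targets

/-!
# MP_2fe131_nt: exponential sum bounds give bounds for sums of `eps`
-/

namespace Pool.Agent.H20.SK

open _root_.SK Finset

theorem two_ne {k : ℕ} [hk : Fact k.Prime] (h2 : k ≠ 2) : (2 : ZMod k) ≠ 0 := by
  intro h
  have h1 : ((2 : ℕ) : ZMod k) = 0 := by exact_mod_cast h
  rw [ZMod.natCast_eq_zero_iff] at h1
  have h3 := (Nat.prime_dvd_prime_iff_eq hk.out Nat.prime_two).1 h1
  exact h2 h3

theorem odd_ne {k : ℕ} [hk : Fact k.Prime] {v : ℕ} (hv : v ∈ odds k) : (v : ZMod k) ≠ 0 := by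
  rw [odds, Finset.mem_filter, Finset.mem_range] at hv
  intro h
  rw [ZMod.natCast_eq_zero_iff] at h
  have := Nat.le_of_dvd (by omega) h
  omega

theorem three_le {k : ℕ} [hk : Fact k.Prime] (h2 : k ≠ 2) : 3 ≤ k := by
  have := hk.out.two_le
  omega

theorem pf_FOUR (hFOU : TARGET_FOU) (hWGT : TARGET_WGT) : TARGET_FOUR := by
  intro k hk ι I c x E h2 hE
  have hk3 := three_le (k := k) h2
  have hk0 : (0 : ℝ) < k := by exact_mod_cast (by omega : 0 < k)
  obtain ⟨hw0, -, -, -, -, hsum⟩ := hWGT k hk3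
  have hE0 : 0 ≤ E := by
    have : Nontrivial (ZMod k) := ZMod.nontrivial_iff.2 (by omega)
    exact (norm_nonneg _).trans (hE 1 one_ne_zero)
  have h1 : ∑ i ∈ I, c i * eps k (x i) = - (2 / k) * ∑ v ∈ odds k, w k v *
      (∑ i ∈ I, (c i : ℂ) * ZMod.stdAddChar ((v : ZMod k) * (2 : ZMod k)⁻¹ * x i)).im := by
    calc ∑ i ∈ I, c i * eps k (x i) = ∑ i ∈ I, c i * (- (2 / k) * ∑ v ∈ odds k,
          w k v * (ZMod.stdAddChar ((v : ZMod k) * (2 : ZMod k)⁻¹ * x i)).im) := by
          refine Finset.sum_congr rfl fun i _ => ?_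
          rw [hFOU k h2 (x i)]
      _ = ∑ i ∈ I, ∑ v ∈ odds k, - (2 / k) * (w k v * (c i *
          (ZMod.stdAddChar ((v : ZMod k) * (2 : ZMod k)⁻¹ * x i)).im)) := by
          refine Finset.sum_congr rfl fun i _ => ?_
          rw [Finset.mul_sum, Finset.mul_sum]
          refine Finset.sum_congr rfl fun v _ => ?_
          ring
      _ = ∑ v ∈ odds k, ∑ i ∈ I, - (2 / k) * (w k v * (c i *
          (ZMod.stdAddChar ((v : ZMod k) * (2 : ZMod k)⁻¹ * x i)).im)) := Finset.sum_comm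
      _ = _ := by
          rw [Finset.mul_sum]
          refine Finset.sum_congr rfl fun v _ => ?_
          rw [← Finset.mul_sum, ← Finset.mul_sum, Complex.im_sum]
          congr 2
          refine Finset.sum_congr rfl fun i _ => ?_
          rw [Complex.im_ofReal_mul]
  rw [h1, abs_mul, abs_neg, abs_of_pos (by positivity)]
  have h3 : |∑ v ∈ odds k, w k v *
      (∑ i ∈ I, (c i : ℂ) * ZMod.stdAddChar ((v : ZMod k) * (2 : ZMod k)⁻¹ * x i)).im| ≤
      k * (1 + Real.log k) * E := by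
    refine (Finset.abs_sum_le_sum_abs _ _).trans ?_
    calc ∑ v ∈ odds k, |w k v * (∑ i ∈ I, (c i : ℂ) *
          ZMod.stdAddChar ((v : ZMod k) * (2 : ZMod k)⁻¹ * x i)).im|
        ≤ ∑ v ∈ odds k, w k v * E := by
          refine Finset.sum_le_sum fun v hv => ?_
          have hv' := hv
          rw [odds, Finset.mem_filter, Finset.mem_range] at hv'
          have hwv := hw0 v (by omega) hv'.1
          rw [abs_mul, abs_of_pos hwv]
          refine mul_le_mul_of_nonneg_left ?_ hwv.le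
          refine (Complex.abs_im_le_norm _).trans (hE _ ?_)
          exact mul_ne_zero (odd_ne hv) (inv_ne_zero (two_ne h2))
      _ = (∑ v ∈ odds k, w k v) * E := by rw [Finset.sum_mul]
      _ ≤ k * (1 + Real.log k) * E := mul_le_mul_of_nonneg_right hsum hE0
  calc 2 / (k : ℝ) * |∑ v ∈ odds k, w k v *
      (∑ i ∈ I, (c i : ℂ) * ZMod.stdAddChar ((v : ZMod k) * (2 : ZMod k)⁻¹ * x i)).im|
      ≤ 2 / (k : ℝ) * (k * (1 + Real.log k) * E) := by gcongr
    _ = 2 * (1 + Real.log k) * E := by field_simp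

end Pool.Agent.H20.SK
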