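import Pool.Agent.H46.SK.Targets

/-!
# MP_2fe131_nt: elementary facts on the weights `cot (π n / 2k)`
-/

namespace Pool.Agent.H20.SK

open _root_.SK Finset

theorem arg_mem {k n : ℕ} (hn0 : 0 < n) (hn : n < k) :
    0 < Real.pi * n / (2 * k) ∧ Real.pi * n / (2 * k) < Real.pi / 2 := by
  have hn0' : (0 : ℝ) < n := by exact_mod_cast hn0
  have hn' : (n : ℝ) < k := by exact_mod_cast hn
  have hk : (0 : ℝ) < k := hn0'.trans hn'
  have hpi := Real.pi_pos
  constructor
  · positivity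
  · rw [div_lt_div_iff₀ (by positivity) (by norm_num)]
    nlinarith [mul_lt_mul_of_pos_left hn' hpi]

theorem sin_arg_pos {x : ℝ} (h0 : 0 < x) (h1 : x < Real.pi / 2) : 0 < Real.sin x :=
  Real.sin_pos_of_pos_of_lt_pi h0 (by linarith [Real.pi_pos])

theorem cos_arg_pos {x : ℝ} (h0 : 0 < x) (h1 : x < Real.pi / 2) : 0 < Real.cos x :=
  Real.cos_pos_of_mem_Ioo ⟨by linarith [Real.pi_pos], h1⟩

theorem cot_le {x : ℝ} (h0 : 0 < x) (h1 : x < Real.pi / 2) : Real.cos x / Real.sin x ≤ 1 / x := by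
  have hs := sin_arg_pos h0 h1
  have hc := cos_arg_pos h0 h1
  have h := Real.lt_tan h0 h1
  rw [Real.tan_eq_sin_div_cos, lt_div_iff₀ hc] at h
  rw [div_le_div_iff₀ hs h0]
  linarith

theorem le_cot_add {x : ℝ} (h0 : 0 < x) (h1 : x < Real.pi / 2) :
    1 / x ≤ Real.cos x / Real.sin x + 1 := by
  have hs := sin_arg_pos h0 h1
  have hc := cos_arg_pos h0 h1
  have h2 : 1 ≤ Real.sin x + Real.cos x := by
    nlinarith [Real.sin_sq_add_cos_sq x, mul_pos hs hc]
  have h3 : Real.sin x ≤ x := Real.sin_le h0.le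
  have : Real.cos x / Real.sin x + 1 = (Real.cos x + Real.sin x) / Real.sin x := by
    field_simp
  rw [this, div_le_div_iff₀ h0 hs]
  nlinarith

theorem inv_arg {k n : ℕ} (_hn0 : 0 < n) (_hn : n < k) :
    1 / (Real.pi * n / (2 * k)) = 2 * k / (Real.pi * n) := by
  rw [one_div_div]

theorem w_pos {k n : ℕ} (hn0 : 0 < n) (hn : n < k) : 0 < w k n := by
  obtain ⟨h0, h1⟩ := arg_mem hn0 hn
  exact div_pos (cos_arg_pos h0 h1) (sin_arg_pos h0 h1)

theorem w_le {k n : ℕ} (hn0 : 0 < n) (hn : n < k) : w k n ≤ 2 * k / (Real.pi * n) := by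
  obtain ⟨h0, h1⟩ := arg_mem hn0 hn
  rw [← inv_arg hn0 hn]
  exact cot_le h0 h1

theorem sum_w_le {k : ℕ} (x : ℕ) (hx : 1 ≤ x) :
    ∑ u ∈ (odds k).filter (fun u => u ≤ x), w k u ≤ k * (1 + Real.log x) := by
  have h1 : ∀ u ∈ (odds k).filter (fun u => u ≤ x), w k u ≤ k * (u : ℝ)⁻¹ := by
    intro u hu
    rw [Finset.mem_filter, odds, Finset.mem_filter, Finset.mem_range] at hu
    obtain ⟨⟨hk, hodd⟩, hux⟩ := hu
    have hu0 : 0 < u := by omega
    refine (w_le hu0 hk).trans ?_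
    have hu0' : (0 : ℝ) < u := by exact_mod_cast hu0
    rw [div_le_iff₀ (mul_pos Real.pi_pos hu0')]
    have : (k : ℝ) * (u : ℝ)⁻¹ * (Real.pi * u) = k * Real.pi := by field_simp
    rw [this]
    have hpi : (2 : ℝ) ≤ Real.pi := Real.two_le_pi
    have hk0 : (0 : ℝ) ≤ k := Nat.cast_nonneg k
    nlinarith
  refine (Finset.sum_le_sum h1).trans ?_
  rw [← Finset.mul_sum]
  have h2 : ∑ u ∈ (odds k).filter (fun u => u ≤ x), (u : ℝ)⁻¹ ≤ ∑ u ∈ Finset.Icc 1 x, (u : ℝ)⁻¹ := by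
    refine Finset.sum_le_sum_of_subset_of_nonneg ?_ (fun _ _ _ => by positivity)
    intro u hu
    rw [Finset.mem_filter, odds, Finset.mem_filter, Finset.mem_range] at hu
    rw [Finset.mem_Icc]
    omega
  have h3 : ∑ u ∈ Finset.Icc 1 x, (u : ℝ)⁻¹ ≤ 1 + Real.log x := by
    have := harmonic_le_one_add_log x
    rw [harmonic_eq_sum_Icc] at this
    push_cast at this
    exact this
  have hk0 : (0 : ℝ) ≤ k := Nat.cast_nonneg k
  exact mul_le_mul_of_nonneg_left (h2.trans h3) hk0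

theorem pf_WGT : TARGET_WGT := by
  intro k hk
  refine ⟨fun n h0 h1 => w_pos h0 h1, fun n h0 h1 => w_le h0 h1, ?_, ?_,
    fun x hx => sum_w_le x hx, ?_⟩
  · intro n hn0 hn
    obtain ⟨h0, h1⟩ := arg_mem hn0 hn
    have h2 := cot_le h0 h1
    have h3 := le_cot_add h0 h1
    rw [inv_arg hn0 hn] at h2 h3
    change |Real.cos (Real.pi * n / (2 * k)) / Real.sin (Real.pi * n / (2 * k)) - _| ≤ 1
    rw [abs_le]
    constructor <;> linarith
  · intro m n hm hmn hn
    obtain ⟨h0, h1⟩ := arg_mem (lt_of_lt_of_le hm hmn) hn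
    obtain ⟨g0, g1⟩ := arg_mem hm (lt_of_le_of_lt hmn hn)
    unfold w
    rw [div_le_div_iff₀ (sin_arg_pos h0 h1) (sin_arg_pos g0 g1)]
    have hle : Real.pi * m / (2 * k) ≤ Real.pi * n / (2 * k) := by
      have : (m : ℝ) ≤ n := by exact_mod_cast hmn
      have hpi := Real.pi_pos
      gcongr
    have hs : 0 ≤ Real.sin (Real.pi * n / (2 * k) - Real.pi * m / (2 * k)) :=
      Real.sin_nonneg_of_nonneg_of_le_pi (by linarith) (by linarith [Real.pi_pos])
    rw [Real.sin_sub] at hs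
    linarith
  · have h := sum_w_le (k := k) k (by omega)
    have hf : (odds k).filter (fun u => u ≤ k) = odds k := by
      refine Finset.filter_true_of_mem fun u hu => ?_
      rw [odds, Finset.mem_filter, Finset.mem_range] at hu
      omega
    rwa [hf] at h

end Pool.Agent.H20.SK
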